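import Mathlib

set_option autoImplicit false
set_option linter.unusedSimpArgs false

namespace Pool.Agent.P.MP_f027b3_co

open SimpleGraph

/-- every cycle has two local maxima for the labelling `f` -/
def TwoMax {V : Type} (G : SimpleGraph V) (f : V → V → ℝ) : Prop :=
  ∀ (u : V) (p : G.Walk u u), p.IsCycle →
    ∃ i j : ℕ, i < p.length ∧ j < p.length ∧ i ≠ j ∧
      f (p.getVert ((i + 1) % p.length)) (p.getVert ((i + 1) % p.length + 1)) <
        f (p.getVert i) (p.getVert (i + 1)) ∧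
      f (p.getVert ((i + p.length - 1) % p.length))
          (p.getVert ((i + p.length - 1) % p.length + 1)) <
        f (p.getVert i) (p.getVert (i + 1)) ∧
      f (p.getVert ((j + 1) % p.length)) (p.getVert ((j + 1) % p.length + 1)) <
        f (p.getVert j) (p.getVert (j + 1)) ∧
      f (p.getVert ((j + p.length - 1) % p.length))
          (p.getVert ((j + p.length - 1) % p.length + 1)) <
        f (p.getVert j) (p.getVert (j + 1))

/-- the graph has a good edge labelling -/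
def Good {V : Type} (G : SimpleGraph V) : Prop :=
  ∃ f : V → V → ℝ, (∀ a b : V, f a b = f b a) ∧
    (∀ x y z w : V, G.Adj x y → G.Adj z w → f x y = f z w →
      (x = z ∧ y = w) ∨ (x = w ∧ y = z)) ∧ TwoMax G f

theorem Good.of_hom {V W : Type} {H : SimpleGraph V} {G : SimpleGraph W} (φ : H →g G)
    (hφ : Function.Injective φ) (h : Good G) : Good H := by
  obtain ⟨f, hs, hi, hc⟩ := h
  refine ⟨fun a b => f (φ a) (φ b), fun a b => hs _ _, ?_, ?_⟩
  · intro x y z w h1 h2 h3
    rcases hi _ _ _ _ (φ.map_adj h1) (φ.map_adj h2) h3 with ⟨a, b⟩ | ⟨a, b⟩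
    · exact Or.inl ⟨hφ a, hφ b⟩
    · exact Or.inr ⟨hφ a, hφ b⟩
  · intro u p hp
    have := hc (φ u) (p.map φ) ((Walk.isCycle_map_iff_of_injective hφ).2 hp)
    simpa only [Walk.length_map, Walk.getVert_map] using this

theorem four_cycle {V : Type} {G : SimpleGraph V} {f : V → V → ℝ} (hc : TwoMax G f)
    {a b c d : V} (h1 : G.Adj a b) (h2 : G.Adj b c) (h3 : G.Adj c d) (h4 : G.Adj d a)
    (hac : a ≠ c) (hbd : b ≠ d) :
    (f b c < f a b ∧ f d a < f c d) ∨ (f a b < f b c ∧ f c d < f d a) := by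
  have hab := h1.ne
  have hbc := h2.ne
  have hcd := h3.ne
  have hda := h4.ne
  have hp : (Walk.cons h1 (Walk.cons h2 (Walk.cons h3 (Walk.cons h4 Walk.nil)))).IsCycle := by
    simp [Walk.isCycle_def, Walk.isTrail_def, hab, hbc, hcd, hda, hac, hbd, hab.symm, hbc.symm,
      hcd.symm, hda.symm, hac.symm, hbd.symm]
  obtain ⟨i, j, hi, hj, hij, e1, e2, e3, e4⟩ := hc a _ hp
  simp only [Walk.length_cons, Walk.length_nil] at hi hj e1 e2 e3 e4
  interval_cases i <;> interval_cases j <;>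
    simp only [Nat.reduceAdd, Nat.reduceMod, Nat.reduceSub, Walk.getVert_cons_succ,
      Walk.getVert_zero, zero_add, ne_eq, not_true_eq_false] at hij e1 e2 e3 e4 <;>
    first
      | exact Or.inl ⟨by linarith, by linarith⟩
      | exact Or.inr ⟨by linarith, by linarith⟩

theorem five_cycle {V : Type} {G : SimpleGraph V} {f : V → V → ℝ} (hc : TwoMax G f)
    {a b c d e : V} (h1 : G.Adj a b) (h2 : G.Adj b c) (h3 : G.Adj c d) (h4 : G.Adj d e)
    (h5 : G.Adj e a) (hac : a ≠ c) (had : a ≠ d) (hbd : b ≠ d) (hbe : b ≠ e) (hce : c ≠ e)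
    (l1 : f a b < f b c) (l2 : f b c < f c d) (l3 : f e a < f d e) : False := by
  have hab := h1.ne
  have hbc := h2.ne
  have hcd := h3.ne
  have hde := h4.ne
  have hea := h5.ne
  have hp : (Walk.cons h1 (Walk.cons h2 (Walk.cons h3 (Walk.cons h4
      (Walk.cons h5 Walk.nil))))).IsCycle := by
    simp [Walk.isCycle_def, Walk.isTrail_def, hab, hbc, hcd, hde, hea, hac, had, hbd, hbe, hce,
      hab.symm, hbc.symm, hcd.symm, hde.symm, hea.symm, hac.symm, had.symm, hbd.symm, hbe.symm,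
      hce.symm]
  obtain ⟨i, j, hi, hj, hij, e1, e2, e3, e4⟩ := hc a _ hp
  simp only [Walk.length_cons, Walk.length_nil] at hi hj e1 e2 e3 e4
  interval_cases i <;> interval_cases j <;>
    simp only [Nat.reduceAdd, Nat.reduceMod, Nat.reduceSub, Walk.getVert_cons_succ,
      Walk.getVert_zero, zero_add, ne_eq, not_true_eq_false] at hij e1 e2 e3 e4 <;>
    linarith

/-- a cycle written as a periodic sequence of vertices -/
structure IsCyc {V : Type} (G : SimpleGraph V) (L : ℤ) (w : ℤ → V) : Prop where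
  three : 3 ≤ L
  adj : ∀ k, G.Adj (w k) (w (k + 1))
  per : ∀ k, w (k + L) = w k
  inj : ∀ k l, k < l → l < k + L → w k ≠ w l

theorem IsCyc.rev {V : Type} {G : SimpleGraph V} {L : ℤ} {w : ℤ → V} (h : IsCyc G L w) :
    IsCyc G L (fun k => w (-k)) where
  three := h.three
  adj := fun k => by
    have := (h.adj (-(k + 1))).symm
    rwa [show -(k + 1) + 1 = -k by ring] at this
  per := fun k => by
    have := h.per (-(k + L))
    rw [show -(k + L) + L = -k by ring] at this
    exact this.symm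
  inj := fun k l h1 h2 => (h.inj (-l) (-k) (by omega) (by omega)).symm

/-- a high-low-high-low pattern inside one period -/
def Pat {α : Type} [LT α] (L : ℤ) (x : ℤ → α) : Prop :=
  ∃ a b c d : ℤ, a < b ∧ b < c ∧ c < d ∧ d < a + L ∧ x b < x a ∧ x d < x a ∧ x b < x c ∧ x d < x c

theorem Pat.of_low {α : Type} [LT α] {L : ℤ} {x : ℤ → α} (hper : ∀ k, x (k + L) = x k)
    (a b c d : ℤ) (h1 : a < b) (h2 : b < c) (h3 : c < d) (h4 : d < a + L)
    (l1 : x a < x b) (l2 : x a < x d) (l3 : x c < x b) (l4 : x c < x d) : Pat L x :=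
  ⟨b, c, d, a + L, h2, h3, h4, by omega, l3, by rwa [hper], l4, by rwa [hper]⟩

theorem Pat.of_rev {α : Type} [LT α] {L : ℤ} {x : ℤ → α} (hper : ∀ k, x (k + L) = x k)
    (h : Pat L (fun k => x (-k - 1))) : Pat L x := by
  obtain ⟨a, b, c, d, h1, h2, h3, h4, l1, l2, l3, l4⟩ := h
  exact Pat.of_low hper (-d - 1) (-c - 1) (-b - 1) (-a - 1) (by omega) (by omega) (by omega)
    (by omega) l4 l2 l3 l1

theorem exists_locmax (x : ℤ → ℝ) (hne : ∀ k, x k ≠ x (k + 1)) (p m q : ℤ) (h1 : p < m)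
    (h2 : m < q) (l1 : x p < x m) (l2 : x q < x m) :
    ∃ i, p < i ∧ i < q ∧ x (i + 1) < x i ∧ x (i - 1) < x i := by
  obtain ⟨i, hi, hmax⟩ := Finset.exists_max_image (Finset.Icc p q) x
    ⟨m, Finset.mem_Icc.2 ⟨h1.le, h2.le⟩⟩
  rw [Finset.mem_Icc] at hi
  have hm := hmax m (Finset.mem_Icc.2 ⟨h1.le, h2.le⟩)
  have hp : i ≠ p := by rintro rfl; linarith
  have hq : i ≠ q := by rintro rfl; linarith
  refine ⟨i, by omega, by omega, ?_, ?_⟩
  · exact lt_of_le_of_ne (hmax _ (Finset.mem_Icc.2 ⟨by omega, by omega⟩)) (hne i).symm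
  · have := hne (i - 1)
    rw [sub_add_cancel] at this
    exact lt_of_le_of_ne (hmax _ (Finset.mem_Icc.2 ⟨by omega, by omega⟩)) this

theorem Pat.two_locmax {L : ℤ} {x : ℤ → ℝ} (hper : ∀ k, x (k + L) = x k)
    (hne : ∀ k, x k ≠ x (k + 1)) (h : Pat L x) :
    ∃ i j : ℤ, i < j ∧ j < i + L ∧ x (i + 1) < x i ∧ x (i - 1) < x i ∧
      x (j + 1) < x j ∧ x (j - 1) < x j := by
  obtain ⟨a, b, c, d, h1, h2, h3, h4, l1, l2, l3, l4⟩ := h
  have hd : x (d - L) = x d := by rw [← hper (d - L), sub_add_cancel]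
  obtain ⟨i, i1, i2, i3, i4⟩ := exists_locmax x hne (d - L) a b (by omega) h1 (by rwa [hd]) l1
  obtain ⟨j, j1, j2, j3, j4⟩ := exists_locmax x hne b c d h2 h3 l3 l4
  exact ⟨i, j, by omega, by omega, i3, i4, j3, j4⟩

/-- from periodic sequences to walks -/
theorem twoMax_of_cyc {V : Type} {G : SimpleGraph V} {f : V → V → ℝ}
    (h : ∀ (L : ℤ) (w : ℤ → V), IsCyc G L w →
      ∃ i j : ℤ, i < j ∧ j < i + L ∧
        f (w (i + 1)) (w (i + 1 + 1)) < f (w i) (w (i + 1)) ∧
        f (w (i - 1)) (w (i - 1 + 1)) < f (w i) (w (i + 1)) ∧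
        f (w (j + 1)) (w (j + 1 + 1)) < f (w j) (w (j + 1)) ∧
        f (w (j - 1)) (w (j - 1 + 1)) < f (w j) (w (j + 1))) : TwoMax G f := by
  intro u p hp
  have h3 : 3 ≤ p.length := hp.three_le_length
  set n := p.length with hn
  have hn0 : (0 : ℤ) < n := by omega
  let r : ℤ → ℕ := fun k => (k % (n : ℤ)).toNat
  have r_lt : ∀ k, r k < n := fun k => by
    have := Int.emod_lt_of_pos k hn0
    have := Int.emod_nonneg k hn0.ne'
    simp only [r]; omega
  have r_cast : ∀ k, ((r k : ℕ) : ℤ) = k % n := fun k => by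
    have := Int.emod_nonneg k hn0.ne'
    simp only [r]; omega
  have r_succ : ∀ k, r (k + 1) = (r k + 1) % n := fun k => by
    apply Nat.cast_injective (R := ℤ)
    push_cast
    rw [r_cast, r_cast, Int.emod_add_emod]
  have r_pred : ∀ k, r (k - 1) = (r k + n - 1) % n := fun k => by
    apply Nat.cast_injective (R := ℤ)
    rw [Int.natCast_mod, Nat.cast_sub (by omega)]
    push_cast
    rw [r_cast, r_cast, show k % n + n - 1 = k % n + (n - 1) by ring, Int.emod_add_emod,
      show k + ((n : ℤ) - 1) = (k - 1) + n by ring, Int.add_emod_right]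
  let w : ℤ → V := fun k => p.getVert (r k)
  have w_succ : ∀ k, w (k + 1) = p.getVert (r k + 1) := fun k => by
    simp only [w, r_succ]
    rcases Nat.lt_or_ge (r k + 1) n with hlt | hge
    · rw [Nat.mod_eq_of_lt hlt]
    · have : r k + 1 = n := by have := r_lt k; omega
      rw [this, Nat.mod_self, Walk.getVert_zero, hn, Walk.getVert_length]
  have hw : IsCyc G n w := by
    refine ⟨by omega, fun k => ?_, fun k => ?_, fun k l h1 h2 hkl => ?_⟩
    · rw [w_succ]; exact p.adj_getVert_succ (r_lt k)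
    · simp only [w, r, Int.add_emod_right]
    · have := hp.getVert_injOn' (show r k ≤ p.length - 1 by have := r_lt k; omega)
        (show r l ≤ p.length - 1 by have := r_lt l; omega) hkl
      have h4 : k % n = l % n := by rw [← r_cast, ← r_cast, this]
      have h5 : (n : ℤ) ∣ l - k := Int.ModEq.dvd h4
      have := Int.le_of_dvd (by omega) h5
      omega
  obtain ⟨i, j, h1, h2, e1, e2, e3, e4⟩ := h n w hw
  refine ⟨r i, r j, r_lt i, r_lt j, ?_, ?_, ?_, ?_, ?_⟩
  · intro hij
    exact hw.inj i j h1 h2 (by simp only [w, hij])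
  · rw [← r_succ, ← w_succ, ← w_succ]; exact e1
  · rw [← r_pred, ← w_succ, ← w_succ]; exact e2
  · rw [← r_succ, ← w_succ, ← w_succ]; exact e3
  · rw [← r_pred, ← w_succ, ← w_succ]; exact e4

/-- tie breaking -/
theorem exists_refine {V : Type} [Finite V] (g : V → V → ℕ) (hg : ∀ a b, g a b = g b a) :
    ∃ f : V → V → ℝ, (∀ a b, f a b = f b a) ∧
      (∀ x y z w, f x y = f z w → (x = z ∧ y = w) ∨ (x = w ∧ y = z)) ∧
      ∀ x y z w, g x y < g z w → f x y < f z w := by
  obtain ⟨m, ⟨e⟩⟩ := Finite.exists_equiv_fin (Sym2 V)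
  refine ⟨fun a b => ((g a b * m + (e s(a, b)).val : ℕ) : ℝ), ?_, ?_, ?_⟩
  · intro a b
    simp only [hg a b, Sym2.eq_swap (a := a)]
  · intro x y z w h
    have h' : g x y * m + (e s(x, y)).val = g z w * m + (e s(z, w)).val :=
      Nat.cast_injective (R := ℝ) h
    have l1 := (e s(x, y)).isLt
    have l2 := (e s(z, w)).isLt
    have h2 := congrArg (· % m) h'
    simp only [Nat.mul_add_mod_self_right, Nat.mod_eq_of_lt l1, Nat.mod_eq_of_lt l2] at h2
    have h3 : s(x, y) = s(z, w) := e.injective (Fin.ext h2)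
    exact Sym2.eq_iff.1 h3
  · intro x y z w h
    have l1 := (e s(x, y)).isLt
    have : g x y * m + (e s(x, y)).val < g z w * m + (e s(z, w)).val := by
      have : (g x y + 1) * m ≤ g z w * m := Nat.mul_le_mul_right _ h
      rw [add_mul, one_mul] at this
      omega
    exact Nat.cast_lt.2 this

/-- a criterion for a good labelling -/
theorem good_of_pat {V : Type} [Finite V] {G : SimpleGraph V} (g : V → V → ℕ)
    (hg : ∀ a b, g a b = g b a)
    (h : ∀ (L : ℤ) (w : ℤ → V), IsCyc G L w → Pat L (fun k => g (w k) (w (k + 1)))) :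
    Good G := by
  obtain ⟨f, f1, f2, f3⟩ := exists_refine g hg
  refine ⟨f, f1, fun x y z w _ _ h => f2 x y z w h, twoMax_of_cyc fun L w hw => ?_⟩
  have hp : Pat L (fun k => f (w k) (w (k + 1))) := by
    obtain ⟨a, b, c, d, h1, h2, h3, h4, l1, l2, l3, l4⟩ := h L w hw
    exact ⟨a, b, c, d, h1, h2, h3, h4, f3 _ _ _ _ l1, f3 _ _ _ _ l2, f3 _ _ _ _ l3, f3 _ _ _ _ l4⟩
  refine Pat.two_locmax (x := fun k => f (w k) (w (k + 1))) (fun k => ?_) (fun k hk => ?_) hp
  · simp only [show k + L + 1 = (k + 1) + L by ring, hw.per]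
  · have h3 := hw.three
    rcases f2 _ _ _ _ hk with ⟨a, _⟩ | ⟨a, _⟩
    · exact (hw.adj k).ne a
    · exact hw.inj k (k + 1 + 1) (by omega) (by omega) a

end Pool.Agent.P.MP_f027b3_co
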