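import Pool.Agent.P.MP_f027b3_co.Basic

set_option autoImplicit false
set_option linter.unusedSimpArgs false
set_option linter.unusedSectionVars false

namespace Pool.Agent.P.MP_f027b3_co

open SimpleGraph

abbrev Vx (n : ℕ) := ZMod n × Option Bool

def rel {n : ℕ} : Vx n → Vx n → Prop
  | (i, none), (j, none) => j = i + 1
  | (i, none), (j, some _) => i = j ∨ i = j + 3
  | (_, some _), _ => False

def Gr (n : ℕ) : SimpleGraph (Vx n) := SimpleGraph.fromRel rel

variable {n : ℕ} [h7 : Fact (7 ≤ n)]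

instance : NeZero n := ⟨by have := h7.out; omega⟩

theorem small_ne (k : ℕ) (h0 : 0 < k) (hk : k < 7) : ((k : ℕ) : ZMod n) ≠ 0 := by
  intro h
  rw [ZMod.natCast_eq_zero_iff] at h
  have := Nat.le_of_dvd h0 h
  have := h7.out
  omega

theorem ne1 : (1 : ZMod n) ≠ 0 := by exact_mod_cast small_ne (n := n) 1 (by omega) (by omega)
theorem ne2 : (2 : ZMod n) ≠ 0 := by exact_mod_cast small_ne (n := n) 2 (by omega) (by omega)
theorem ne3 : (3 : ZMod n) ≠ 0 := by exact_mod_cast small_ne (n := n) 3 (by omega) (by omega)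
theorem ne4 : (4 : ZMod n) ≠ 0 := by exact_mod_cast small_ne (n := n) 4 (by omega) (by omega)
theorem ne5 : (5 : ZMod n) ≠ 0 := by exact_mod_cast small_ne (n := n) 5 (by omega) (by omega)
theorem ne6 : (6 : ZMod n) ≠ 0 := by exact_mod_cast small_ne (n := n) 6 (by omega) (by omega)

theorem adj_nn (i j : ZMod n) : (Gr n).Adj (i, none) (j, none) ↔ j = i + 1 ∨ i = j + 1 := by
  simp only [Gr, fromRel_adj, rel, ne_eq, Prod.mk.injEq, and_true, and_iff_right_iff_imp]
  rintro (h | h) rfl <;> exact ne1 (n := n) (by linear_combination -h)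

theorem adj_ns (i j : ZMod n) (b : Bool) :
    (Gr n).Adj (i, none) (j, some b) ↔ i = j ∨ i = j + 3 := by
  simp [Gr, fromRel_adj, rel]

theorem adj_sn (i j : ZMod n) (b : Bool) :
    (Gr n).Adj (j, some b) (i, none) ↔ i = j ∨ i = j + 3 := by
  rw [adj_comm, adj_ns]

theorem adj_ss (i j : ZMod n) (b c : Bool) : ¬ (Gr n).Adj (i, some b) (j, some c) := by
  simp [Gr, fromRel_adj, rel]

/-- the graph has no good labelling when `n` is odd -/
theorem not_good (hodd : n % 2 = 1) : ¬ Good (Gr n) := by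
  rintro ⟨f, hs, hi, hc⟩
  let e : ZMod n → ℝ := fun i => f (i, none) (i + 1, none)
  have hne : ∀ i, e i ≠ e (i + 1) := by
    intro i h
    rcases hi _ _ _ _ ((adj_nn i (i + 1)).2 (Or.inl rfl))
      ((adj_nn (i + 1) (i + 1 + 1)).2 (Or.inl rfl)) h with ⟨a, _⟩ | ⟨a, _⟩
    · exact ne1 (n := n) (by linear_combination -(Prod.mk.inj a).1)
    · exact ne2 (n := n) (by linear_combination -(Prod.mk.inj a).1)
  have key : ∀ i : ZMod n, (∃ b, f (i, some b) (i, none) < f (i + 1 + 1 + 1, none) (i, some b)) ∧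
      ∃ b, f (i, some b) (i + 1 + 1 + 1, none) < f (i, none) (i, some b) := by
    intro i
    have a1 : ∀ b, (Gr n).Adj (i, none) (i, some b) := fun b => (adj_ns _ _ _).2 (Or.inl rfl)
    have a2 : ∀ b, (Gr n).Adj (i + 1 + 1 + 1, none) (i, some b) := fun b =>
      (adj_ns _ _ _).2 (Or.inr (by ring))
    have := four_cycle hc (a1 true) (a2 true).symm (a2 false) (a1 false).symm
      (fun h => ne3 (n := n) (by linear_combination -(Prod.mk.inj h).1)) (by simp)
    rcases this with ⟨l1, l2⟩ | ⟨l1, l2⟩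
    · exact ⟨⟨false, l2⟩, ⟨true, l1⟩⟩
    · refine ⟨⟨true, ?_⟩, ⟨false, ?_⟩⟩
      · rwa [hs (i, some true) (i, none), hs (i + 1 + 1 + 1, none) (i, some true)]
      · rwa [hs (i, some false) (i + 1 + 1 + 1, none), hs (i, none) (i, some false)]
  have alt : ∀ i : ZMod n, e i < e (i + 1) ↔ ¬ e (i + 1) < e (i + 1 + 1) := by
    intro i
    obtain ⟨⟨b, hb⟩, ⟨c, hc'⟩⟩ := key i
    have c1 : (Gr n).Adj (i, none) (i + 1, none) := (adj_nn _ _).2 (Or.inl rfl)
    have c2 : (Gr n).Adj (i + 1, none) (i + 1 + 1, none) := (adj_nn _ _).2 (Or.inl rfl)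
    have c3 : (Gr n).Adj (i + 1 + 1, none) (i + 1 + 1 + 1, none) := (adj_nn _ _).2 (Or.inl rfl)
    have a1 : ∀ b, (Gr n).Adj (i, none) (i, some b) := fun b => (adj_ns _ _ _).2 (Or.inl rfl)
    have a2 : ∀ b, (Gr n).Adj (i + 1 + 1 + 1, none) (i, some b) := fun b =>
      (adj_ns _ _ _).2 (Or.inr (by ring))
    have d1 : ((i, none) : Vx n) ≠ (i + 1 + 1, none) :=
      fun h => ne2 (n := n) (by linear_combination -(Prod.mk.inj h).1)
    have d2 : ((i, none) : Vx n) ≠ (i + 1 + 1 + 1, none) :=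
      fun h => ne3 (n := n) (by linear_combination -(Prod.mk.inj h).1)
    have d3 : ((i + 1, none) : Vx n) ≠ (i + 1 + 1 + 1, none) :=
      fun h => ne2 (n := n) (by linear_combination -(Prod.mk.inj h).1)
    constructor
    · intro l1 l2
      exact five_cycle hc c1 c2 c3 (a2 b) (a1 b).symm d1 d2 d3 (by simp) (by simp) l1 l2 hb
    · intro l2
      by_contra l1
      have l1' : e (i + 1) < e i := lt_of_le_of_ne (not_lt.1 l1) (hne i).symm
      have l2' : e (i + 1 + 1) < e (i + 1) := lt_of_le_of_ne (not_lt.1 l2) (hne (i + 1)).symm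
      refine five_cycle hc c3.symm c2.symm c1.symm (a1 c) (a2 c).symm d3.symm d2.symm d1.symm
        (by simp) (by simp) ?_ ?_ hc'
      · rw [hs _ (i + 1 + 1, none), hs _ (i + 1, none)]; exact l2'
      · rw [hs _ (i + 1, none), hs _ (i, none)]; exact l1'
  have par : ∀ k : ℕ, (e (k : ZMod n) < e ((k : ZMod n) + 1) ↔ (e 0 < e (0 + 1) ↔ k % 2 = 0)) := by
    intro k
    induction k with
    | zero => simp
    | succ k ih =>
      have := alt (k : ZMod n)
      push_cast
      have h2 : (k + 1) % 2 = 0 ↔ ¬ k % 2 = 0 := by omega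
      rw [h2]
      tauto
  have := par n
  rw [ZMod.natCast_self] at this
  have h2 : ¬ n % 2 = 0 := by omega
  tauto

theorem no_isolated (v : Vx n) : ∃ w, (Gr n).Adj v w := by
  obtain ⟨i, _ | b⟩ := v
  · exact ⟨(i + 1, none), (adj_nn _ _).2 (Or.inl rfl)⟩
  · exact ⟨(i, none), (adj_sn _ _ _).2 (Or.inl rfl)⟩

/-- the five edges of the one bad cycle -/
def five (s : ZMod n) (β : Bool) : Set (Sym2 (Vx n)) :=
  {s((s, some β), (s, none)), s((s, none), (s + 1, none)), s((s + 1, none), (s + 1 + 1, none)),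
    s((s + 1 + 1, none), (s + 1 + 1 + 1, none)), s((s + 1 + 1 + 1, none), (s, some β))}

theorem mem_five {x y : Vx n} (h : (Gr n).Adj x y) : ∃ s β, s(x, y) ∈ five s β := by
  obtain ⟨i, _ | b⟩ := x <;> obtain ⟨j, _ | c⟩ := y
  · rcases (adj_nn _ _).1 h with rfl | rfl
    · exact ⟨i, true, by simp [five]⟩
    · exact ⟨j, true, by simp [five]⟩
  · rcases (adj_ns _ _ _).1 h with rfl | rfl
    · exact ⟨i, c, by simp [five]⟩
    · refine ⟨j, c, ?_⟩
      rw [show j + 3 = j + 1 + 1 + 1 by ring]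
      simp [five]
  · rcases (adj_sn _ _ _).1 h with rfl | rfl
    · exact ⟨j, b, by simp [five]⟩
    · refine ⟨i, b, ?_⟩
      rw [show i + 3 = i + 1 + 1 + 1 by ring]
      simp [five]
  · exact (adj_ss _ _ _ _ h).elim

def edgeOf (p : ZMod n × Fin 5) : Sym2 (Vx n) :=
  ![s((p.1, none), (p.1 + 1, none)), s((p.1, none), (p.1, some true)),
    s((p.1, none), (p.1, some false)), s((p.1 + 3, none), (p.1, some true)),
    s((p.1 + 3, none), (p.1, some false))] p.2

theorem edge_card : (Gr n).edgeSet.ncard ≤ 5 * n := by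
  have hsub : (Gr n).edgeSet ⊆ Set.range (edgeOf (n := n)) := by
    intro e he
    induction e using Sym2.ind with
    | h x y =>
      rw [mem_edgeSet] at he
      obtain ⟨i, _ | b⟩ := x <;> obtain ⟨j, _ | c⟩ := y
      · rcases (adj_nn _ _).1 he with rfl | rfl
        · exact ⟨(i, 0), rfl⟩
        · exact ⟨(j, 0), Sym2.eq_swap⟩
      · rcases (adj_ns _ _ _).1 he with rfl | rfl <;> cases c
        · exact ⟨(i, 2), rfl⟩
        · exact ⟨(i, 1), rfl⟩
        · exact ⟨(j, 4), rfl⟩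
        · exact ⟨(j, 3), rfl⟩
      · rcases (adj_sn _ _ _).1 he with rfl | rfl <;> cases b
        · exact ⟨(j, 2), Sym2.eq_swap⟩
        · exact ⟨(j, 1), Sym2.eq_swap⟩
        · exact ⟨(i, 4), Sym2.eq_swap⟩
        · exact ⟨(i, 3), Sym2.eq_swap⟩
      · exact (adj_ss _ _ _ _ he).elim
  refine (Set.ncard_le_ncard hsub (Set.toFinite _)).trans ?_
  rw [← Set.image_univ]
  refine (Set.ncard_image_le (Set.toFinite _)).trans ?_
  rw [Set.ncard_univ, Nat.card_prod, Nat.card_zmod]
  simp [mul_comm]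

theorem card_Vx : Fintype.card (Vx n) = 3 * n := by
  simp [Fintype.card_prod, ZMod.card, mul_comm]

end Pool.Agent.P.MP_f027b3_co
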