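import Pool.Agent.P.MP_f027b3_co.Graph

set_option autoImplicit false
set_option linter.unusedSimpArgs false
set_option linter.unusedSectionVars false

namespace Pool.Agent.P.MP_f027b3_co

open SimpleGraph

variable {n : ℕ} [h7 : Fact (7 ≤ n)]

def Qv (t : ℕ) : ℕ := if t = 1 then 2 else if t ≠ 0 ∧ t % 2 = 0 then 3 else 1

def Pv (s k : ZMod n) : ℕ := Qv (k - s).val

def hd (β : Bool) (j : ZMod n) (b : Bool) : ZMod n := if b = β then j + 3 else j
def tl (β : Bool) (j : ZMod n) (b : Bool) : ZMod n := if b = β then j else j + 3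

def hv (s : ZMod n) (β : Bool) : Vx n → Vx n → ℕ
  | (i, none), (j, none) => if j = i + 1 then Pv s i else 0
  | (i, none), (j, some b) => if i = hd β j b then 4 else 0
  | (_, some _), _ => 0

def gv (s : ZMod n) (β : Bool) (x y : Vx n) : ℕ := hv s β x y + hv s β y x

theorem gv_symm (s : ZMod n) (β : Bool) (x y : Vx n) : gv s β x y = gv s β y x := add_comm _ _

theorem Pv_bd (s k : ZMod n) : 1 ≤ Pv s k ∧ Pv s k ≤ 3 := by
  unfold Pv Qv
  split_ifs <;> omega

theorem val_succ (x : ZMod n) : (x + 1).val = (x.val + 1) % n := by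
  have := h7.out
  have : Fact (1 < n) := ⟨by omega⟩
  rw [ZMod.val_add, ZMod.val_one]

theorem Pv_succ (s k : ZMod n) : Pv s (k + 1) = Qv (((k - s).val + 1) % n) := by
  rw [Pv, ← val_succ]; congr 2; ring

theorem Pv_succ2 (s k : ZMod n) : Pv s (k + 1 + 1) = Qv ((((k - s).val + 1) % n + 1) % n) := by
  rw [Pv, ← val_succ, ← val_succ]; congr 2; ring

theorem mod_cases (t : ℕ) (ht : t < n) :
    ((t + 1) % n = t + 1 ∧ ((t + 1) % n + 1) % n = t + 2 ∧ t + 2 < n) ∨
    ((t + 1) % n = t + 1 ∧ ((t + 1) % n + 1) % n = 0 ∧ t + 2 = n) ∨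
    ((t + 1) % n = 0 ∧ ((t + 1) % n + 1) % n = 1 ∧ t + 1 = n) := by
  have := h7.out
  rcases Nat.lt_trichotomy (t + 2) n with h | h | h
  · left
    rw [Nat.mod_eq_of_lt (show t + 1 < n by omega), Nat.mod_eq_of_lt (show t + 1 + 1 < n by omega)]
    omega
  · right; left
    rw [Nat.mod_eq_of_lt (show t + 1 < n by omega), show t + 1 + 1 = n by omega, Nat.mod_self]
    omega
  · right; right
    rw [show t + 1 = n by omega, Nat.mod_self, Nat.mod_eq_of_lt (show 0 + 1 < n by omega)]
    omega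

theorem Pv_asc (hodd : n % 2 = 1) (s k : ZMod n) :
    Pv s k < Pv s (k + 1) ∨ Pv s (k + 1) < Pv s (k + 1 + 1) := by
  rw [Pv_succ, Pv_succ2, Pv]
  have := h7.out
  have ht := ZMod.val_lt (k - s)
  generalize (k - s).val = t at ht
  rcases mod_cases t ht with ⟨h1, h2, h3⟩ | ⟨h1, h2, h3⟩ | ⟨h1, h2, h3⟩ <;> rw [h2, h1] <;>
    unfold Qv <;> split_ifs <;> first | omega | simp_all

theorem Pv_desc (hodd : n % 2 = 1) (s k : ZMod n) (hk : k ≠ s) :
    Pv s (k + 1) < Pv s k ∨ Pv s (k + 1 + 1) < Pv s (k + 1) := by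
  rw [Pv_succ, Pv_succ2, Pv]
  have := h7.out
  have ht := ZMod.val_lt (k - s)
  have ht0 : (k - s).val ≠ 0 := by
    rw [ne_eq, ZMod.val_eq_zero, sub_eq_zero]; exact hk
  generalize (k - s).val = t at ht ht0
  rcases mod_cases t ht with ⟨h1, h2, h3⟩ | ⟨h1, h2, h3⟩ | ⟨h1, h2, h3⟩ <;> rw [h2, h1] <;>
    unfold Qv <;> split_ifs <;> omega

theorem Pv_nat (s : ZMod n) (k : ℕ) (hk : k < 7) : Pv s (s + k) = Qv k := by
  have := h7.out
  rw [Pv, add_sub_cancel_left, ZMod.val_natCast, Nat.mod_eq_of_lt (by omega)]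

theorem gv_fwd (s : ZMod n) (β : Bool) (i : ZMod n) : gv s β (i, none) (i + 1, none) = Pv s i := by
  have : ¬ i = i + 1 + 1 := fun h => ne2 (n := n) (by linear_combination -h)
  simp [gv, hv, this]

theorem gv_hd (s : ZMod n) (β : Bool) (j : ZMod n) (b : Bool) :
    gv s β (hd β j b, none) (j, some b) = 4 := by
  simp [gv, hv]

theorem tl_ne_hd (β : Bool) (j : ZMod n) (b : Bool) : tl β j b ≠ hd β j b := by
  unfold tl hd
  split_ifs
  · exact fun h => ne3 (n := n) (by linear_combination -h)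
  · exact fun h => ne3 (n := n) (by linear_combination h)

theorem gv_tl (s : ZMod n) (β : Bool) (j : ZMod n) (b : Bool) :
    gv s β (tl β j b, none) (j, some b) = 0 := by
  simp [gv, hv, tl_ne_hd]

theorem adj_gad (β : Bool) {j : ZMod n} {b : Bool} {v : Vx n} (h : (Gr n).Adj v (j, some b)) :
    v = (tl β j b, none) ∨ v = (hd β j b, none) := by
  obtain ⟨i, _ | c⟩ := v
  · unfold tl hd
    rcases (adj_ns _ _ _).1 h with rfl | rfl <;> split_ifs <;> simp
  · exact (adj_ss _ _ _ _ h).elim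

theorem hd_tl_inj (β : Bool) {j j' : ZMod n} {b b' : Bool} (h1 : tl β j b = tl β j' b')
    (h2 : hd β j b = hd β j' b') : j = j' ∧ b = b' := by
  unfold tl hd at *
  by_cases hb : b = β <;> by_cases hb' : b' = β <;> simp only [hb, hb', if_true, if_false] at h1 h2
  · exact ⟨h1, hb.trans hb'.symm⟩
  · exact (ne6 (n := n) (by linear_combination h2 - h1)).elim
  · exact (ne6 (n := n) (by linear_combination h1 - h2)).elim
  · refine ⟨h2, ?_⟩
    cases b <;> cases b' <;> cases β <;> simp_all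

section Cyc

variable {L : ℤ} {w : ℤ → Vx n} (s : ZMod n) (β : Bool)

theorem gad_at (hw : IsCyc (Gr n) L w) {i : ℤ} {j : ZMod n} {b : Bool} (h : w i = (j, some b)) :
    (w (i - 1) = (tl β j b, none) ∧ w (i + 1) = (hd β j b, none)) ∨
    (w (i - 1) = (hd β j b, none) ∧ w (i + 1) = (tl β j b, none)) := by
  have h3 := hw.three
  have a1 := hw.adj (i - 1)
  rw [sub_add_cancel, h] at a1
  have a2 := (hw.adj i).symm
  rw [h] at a2
  have hne := hw.inj (i - 1) (i + 1) (by omega) (by omega)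
  rcases adj_gad β a1 with e1 | e1 <;> rcases adj_gad β a2 with e2 | e2
  · exact (hne (e1.trans e2.symm)).elim
  · exact Or.inl ⟨e1, e2⟩
  · exact Or.inr ⟨e1, e2⟩
  · exact (hne (e1.trans e2.symm)).elim

/-- labels along the cycle -/
def xs (s : ZMod n) (β : Bool) (w : ℤ → Vx n) (k : ℤ) : ℕ := gv s β (w k) (w (k + 1))

theorem xs_per (hw : IsCyc (Gr n) L w) (k : ℤ) : xs s β w (k + L) = xs s β w k := by
  simp only [xs, show k + L + 1 = (k + 1) + L by ring, hw.per]

theorem gad_at' (hw : IsCyc (Gr n) L w) {i : ℤ} {j : ZMod n} {b : Bool} (h : w i = (j, some b)) :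
    (w (i - 1) = (tl β j b, none) ∧ w (i + 1) = (hd β j b, none) ∧
      xs s β w (i - 1) = 0 ∧ xs s β w i = 4) ∨
    (w (i - 1) = (hd β j b, none) ∧ w (i + 1) = (tl β j b, none) ∧
      xs s β w (i - 1) = 4 ∧ xs s β w i = 0) := by
  rcases gad_at β hw h with ⟨e1, e2⟩ | ⟨e1, e2⟩
  · refine Or.inl ⟨e1, e2, ?_, ?_⟩
    · rw [xs, sub_add_cancel, e1, h, gv_tl]
    · rw [xs, e2, h, gv_symm, gv_hd]
  · refine Or.inr ⟨e1, e2, ?_, ?_⟩
    · rw [xs, sub_add_cancel, e1, h, gv_hd]
    · rw [xs, e2, h, gv_symm, gv_tl]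

theorem gad_x (hw : IsCyc (Gr n) L w) {i : ℤ} (h : (w i).2 ≠ none) :
    (w (i - 1)).2 = none ∧ (w (i + 1)).2 = none ∧
      ((xs s β w (i - 1) = 0 ∧ xs s β w i = 4) ∨ (xs s β w (i - 1) = 4 ∧ xs s β w i = 0)) := by
  obtain ⟨b, hb⟩ := Option.ne_none_iff_exists'.1 h
  have : w i = ((w i).1, some b) := Prod.ext rfl hb
  rcases gad_at' s β hw this with ⟨e1, e2, e3, e4⟩ | ⟨e1, e2, e3, e4⟩
  · exact ⟨by rw [e1], by rw [e2], Or.inl ⟨e3, e4⟩⟩
  · exact ⟨by rw [e1], by rw [e2], Or.inr ⟨e3, e4⟩⟩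

theorem cyc_step (hw : IsCyc (Gr n) L w) {k : ℤ} (h1 : (w k).2 = none) (h2 : (w (k + 1)).2 = none) :
    w (k + 1) = ((w k).1 + 1, none) ∨ w (k + 1) = ((w k).1 + (-1), none) := by
  have a := hw.adj k
  have e1 : w k = ((w k).1, none) := Prod.ext rfl h1
  have e2 : w (k + 1) = ((w (k + 1)).1, none) := Prod.ext rfl h2
  rw [e1, e2] at a
  rcases (adj_nn _ _).1 a with h | h
  · left; rw [e2, h]
  · right; rw [e2, h]; simp

theorem cyc_x (hw : IsCyc (Gr n) L w) {k : ℤ} (h1 : (w k).2 = none) (h2 : (w (k + 1)).2 = none) :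
    1 ≤ xs s β w k ∧ xs s β w k ≤ 3 := by
  have e1 : w k = ((w k).1, none) := Prod.ext rfl h1
  rcases cyc_step hw h1 h2 with h | h
  · rw [xs, h, e1, gv_fwd]; exact Pv_bd _ _
  · have e3 : w k = (((w k).1 + (-1)) + 1, none) := by rw [e1]; simp
    have e4 : xs s β w k = gv s β ((w k).1 + (-1), none) (((w k).1 + (-1)) + 1, none) := by
      rw [xs, h, gv_symm, ← e3]
    rw [e4, gv_fwd]; exact Pv_bd _ _

theorem next_x (hw : IsCyc (Gr n) L w) {k : ℤ} (h1 : (w k).2 = none) :
    ((w (k + 1)).2 = none ∧ 1 ≤ xs s β w k ∧ xs s β w k ≤ 3) ∨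
    ((w (k + 1)).2 ≠ none ∧ (w (k + 1 + 1)).2 = none ∧
      ((xs s β w k = 0 ∧ xs s β w (k + 1) = 4) ∨ (xs s β w k = 4 ∧ xs s β w (k + 1) = 0))) := by
  by_cases h2 : (w (k + 1)).2 = none
  · exact Or.inl ⟨h2, cyc_x s β hw h1 h2⟩
  · have := gad_x s β hw h2
    rw [add_sub_cancel_right] at this
    exact Or.inr ⟨h2, this.2.1, this.2.2⟩

theorem two_gad_aux (hw : IsCyc (Gr n) L w) {i j : ℤ} (hij : i < j) (hji : j < i + L)
    (hi : (w i).2 ≠ none) (hj : (w j).2 ≠ none)
    (x1 : xs s β w (i - 1) = 4) (x2 : xs s β w i = 0) (x3 : xs s β w (j - 1) = 0)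
    (x4 : xs s β w j = 4) : Pat L (xs s β w) := by
  obtain ⟨i1, i2, -⟩ := gad_x s β hw hi
  obtain ⟨j1, j2, -⟩ := gad_x s β hw hj
  have hij2 : j ≠ i + 1 := by rintro rfl; exact hj i2
  have hji2 : i + L ≠ j + 1 := by
    intro h
    rw [← h, hw.per] at j2
    exact hi j2
  by_cases c1 : j = i + 2
  · by_cases c2 : i + L = j + 2
    · exfalso
      obtain ⟨b, hb⟩ := Option.ne_none_iff_exists'.1 hi
      obtain ⟨c, hc⟩ := Option.ne_none_iff_exists'.1 hj
      have ei : w i = ((w i).1, some b) := Prod.ext rfl hb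
      have ej : w j = ((w j).1, some c) := Prod.ext rfl hc
      rcases gad_at' s β hw ei with ⟨e1, e2, e3, e4⟩ | ⟨e1, e2, e3, e4⟩
      · omega
      rcases gad_at' s β hw ej with ⟨f1, f2, f3, f4⟩ | ⟨f1, f2, f3, f4⟩
      swap
      · omega
      have t1 : w (j - 1) = w (i + 1) := by congr 1; omega
      have t2 : w (j + 1) = w (i - 1) := by
        rw [← hw.per (i - 1)]; congr 1; omega
      rw [f1, e2] at t1
      rw [f2, e1] at t2
      obtain ⟨u1, u2⟩ := hd_tl_inj β (Prod.mk.inj t1).1 (Prod.mk.inj t2).1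
      exact hw.inj i j hij hji (by rw [ei, ej, u1, u2])
    · have p1 : xs s β w (i - 1 + L) = 4 := by rw [xs_per s β hw, x1]
      have p2 : xs s β w (i + L) = 0 := by rw [xs_per s β hw, x2]
      have hiL : (w (i + L)).2 ≠ none := by rwa [hw.per]
      rcases next_x s β hw j2 with ⟨n1, n2, n3⟩ | ⟨n1, n2, n3⟩
      · exact ⟨j, j + 1, i - 1 + L, i + L, by omega, by omega, by omega, by omega, by omega,
          by omega, by omega, by omega⟩
      · have c3 : i + L ≠ j + 1 + 1 + 1 := by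
          intro h
          rw [h] at hiL
          exact hiL n2
        rcases n3 with ⟨n3, n4⟩ | ⟨n3, n4⟩
        · exact ⟨j, j + 1, i - 1 + L, i + L, by omega, by omega, by omega, by omega, by omega,
            by omega, by omega, by omega⟩
        · exact ⟨j, j + 1 + 1, i - 1 + L, i + L, by omega, by omega, by omega, by omega, by omega,
            by omega, by omega, by omega⟩
  · rcases next_x s β hw i2 with ⟨n1, n2, n3⟩ | ⟨n1, n2, n3⟩
    · exact ⟨i - 1, i, i + 1, j - 1, by omega, by omega, by omega, by omega, by omega,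
        by omega, by omega, by omega⟩
    · have c3 : j ≠ i + 1 + 1 + 1 := by
        rintro rfl
        exact hj n2
      rcases n3 with ⟨n3, n4⟩ | ⟨n3, n4⟩
      · exact ⟨i - 1, i, i + 1 + 1, j - 1, by omega, by omega, by omega, by omega, by omega,
          by omega, by omega, by omega⟩
      · exact ⟨i - 1, i, i + 1, j - 1, by omega, by omega, by omega, by omega, by omega,
          by omega, by omega, by omega⟩

theorem two_gad (hw : IsCyc (Gr n) L w) {i j : ℤ} (hij : i < j) (hji : j < i + L)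
    (hi : (w i).2 ≠ none) (hj : (w j).2 ≠ none) : Pat L (xs s β w) := by
  obtain ⟨i1, i2, i3⟩ := gad_x s β hw hi
  obtain ⟨j1, j2, j3⟩ := gad_x s β hw hj
  have hij2 : j ≠ i + 1 := by rintro rfl; exact hj i2
  have hji2 : i + L ≠ j + 1 := by
    intro h
    rw [← h, hw.per] at j2
    exact hi j2
  rcases i3 with ⟨x1, x2⟩ | ⟨x1, x2⟩ <;> rcases j3 with ⟨x3, x4⟩ | ⟨x3, x4⟩
  · exact Pat.of_low (xs_per s β hw) (i - 1) i (j - 1) j (by omega) (by omega) (by omega)
      (by omega) (by omega) (by omega) (by omega) (by omega)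
  · refine two_gad_aux s β hw hji (by omega) hj (by rwa [hw.per]) x3 x4 ?_ ?_
    · rw [show i + L - 1 = i - 1 + L by ring, xs_per s β hw, x1]
    · rw [xs_per s β hw, x2]
  · exact two_gad_aux s β hw hij hji hi hj x1 x2 x3 x4
  · exact ⟨i - 1, i, j - 1, j, by omega, by omega, by omega, by omega, by omega,
      by omega, by omega, by omega⟩

theorem run (hw : IsCyc (Gr n) L w) (p : ℤ) (ε : ZMod n) (hε : ε = 1 ∨ ε = -1) (N : ℕ)
    (h : ∀ k : ℕ, k ≤ N + 1 → (w (p + k)).2 = none) (h1 : w (p + 1) = ((w p).1 + ε, none)) :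
    ∀ k : ℕ, k ≤ N + 1 → w (p + k) = ((w p).1 + k * ε, none) := by
  have h3 := hw.three
  have key : ∀ k : ℕ, k ≤ N → w (p + k) = ((w p).1 + k * ε, none) ∧
      w (p + k + 1) = ((w p).1 + (k + 1) * ε, none) := by
    intro k
    induction k with
    | zero =>
      intro _
      have := h 0 (by omega)
      simp only [Nat.cast_zero, add_zero, zero_mul, zero_add, one_mul] at this ⊢
      exact ⟨Prod.ext rfl this, h1⟩
    | succ k ih =>
      intro hk
      obtain ⟨i1, i2⟩ := ih (by omega)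
      have q1 := h (k + 1) (by omega)
      have q2 := h (k + 2) (by omega)
      push_cast at q1 q2 ⊢
      rw [← add_assoc] at q1 ⊢
      rw [show p + ((k : ℤ) + 2) = p + k + 1 + 1 by ring] at q2
      refine ⟨i2, ?_⟩
      have hne := hw.inj (p + k) (p + k + 1 + 1) (by omega) (by omega)
      rcases cyc_step hw q1 q2 with e | e <;> rw [i2] at e <;> rcases hε with rfl | rfl
      · rw [e]; congr 1; ring
      · exact (hne (by rw [i1, e]; congr 1; ring)).elim
      · exact (hne (by rw [i1, e]; congr 1; ring)).elim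
      · rw [e]; congr 1; ring
  intro k hk
  rcases Nat.eq_zero_or_pos k with rfl | hpos
  · exact (key 0 (by omega)).1
  · obtain ⟨k, rfl⟩ : ∃ k', k = k' + 1 := ⟨k - 1, by omega⟩
    have := (key k (by omega)).2
    push_cast
    rwa [← add_assoc]

theorem one_gad_fwd (hodd : n % 2 = 1) (hw : IsCyc (Gr n) L w) {i : ℤ} (hi : (w i).2 ≠ none)
    (hno : ∀ k, i < k → k < i + L → (w k).2 = none)
    (h1 : w (i + 1 + 1) = ((w (i + 1)).1 + 1, none))
    {E : Sym2 (Vx n)} (hE : E ∈ five s β) (hav : ∀ k, s(w k, w (k + 1)) ≠ E) :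
    Pat L (xs s β w) := by
  have h3 := hw.three
  obtain ⟨N, rfl⟩ : ∃ N : ℕ, L = N + 3 := ⟨(L - 3).toNat, by omega⟩
  have hr := run hw (i + 1) 1 (Or.inl rfl) N (fun k hk => hno _ (by omega) (by omega)) h1
  simp only [mul_one] at hr
  set u := (w (i + 1)).1 with hu
  have hx : ∀ k : ℕ, k ≤ N → xs s β w (i + 1 + k) = Pv s (u + k) := by
    intro k hk
    have a1 := hr k (by omega)
    have a2 := hr (k + 1) (by omega)
    push_cast at a2
    rw [xs, a1, add_assoc (i + 1), a2, ← add_assoc, gv_fwd]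
  obtain ⟨b, hb⟩ := Option.ne_none_iff_exists'.1 hi
  have ei : w i = ((w i).1, some b) := Prod.ext rfl hb
  set j := (w i).1 with hj
  have hend : w (i - 1) = (u + (N + 1), none) := by
    have := hr (N + 1) le_rfl
    push_cast at this
    rw [← this, ← hw.per (i - 1)]; congr 1; ring
  have hbeg : w (i + 1) = (u, none) := by simpa using hr 0 (by omega)
  have hN : 2 ≤ N := by
    by_contra hlt
    have hN' : N = 0 ∨ N = 1 := by omega
    rcases gad_at β hw ei with ⟨e1, e2⟩ | ⟨e1, e2⟩ <;> rw [hend] at e1 <;> rw [hbeg] at e2 <;>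
      have f1 := (Prod.mk.inj e1).1 <;> have f2 := (Prod.mk.inj e2).1 <;>
      simp only [tl, hd] at f1 f2 <;> split_ifs at f1 f2 <;> rcases hN' with rfl | rfl <;>
      push_cast at f1 <;>
      first
        | exact ne1 (n := n) (by linear_combination f2 - f1)
        | exact ne2 (n := n) (by linear_combination f2 - f1)
        | exact ne4 (n := n) (by linear_combination f1 - f2)
        | exact ne5 (n := n) (by linear_combination f1 - f2)
  have y0 := hx 0 (by omega)
  have y1 := hx 1 (by omega)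
  have y2 := hx 2 (by omega)
  simp only [Nat.cast_zero, add_zero, Nat.cast_one, Nat.cast_ofNat] at y0 y1 y2
  rw [show u + 2 = u + 1 + 1 by ring] at y2
  have b0 := Pv_bd s u
  have b1 := Pv_bd s (u + 1)
  have b2 := Pv_bd s (u + 1 + 1)
  rcases gad_at' s β hw ei with ⟨e1, e2, e3, e4⟩ | ⟨e1, e2, e3, e4⟩
  · have p1 : xs s β w (i - 1 + (N + 3)) = 0 := by rw [xs_per s β hw, e3]
    rcases Pv_asc hodd s u with a | a
    · exact ⟨i, i + 1, i + 1 + 1, i - 1 + (N + 3), by omega, by omega, by omega, by omega,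
        by omega, by omega, by omega, by omega⟩
    · exact ⟨i, i + 1 + 1, i + 1 + 2, i - 1 + (N + 3), by omega, by omega, by omega, by omega,
        by omega, by omega, by omega, by omega⟩
  · have p1 : xs s β w (i - 1 + (N + 3)) = 4 := by rw [xs_per s β hw, e3]
    by_cases hus : u = s
    · by_cases hN2 : N = 2
      · exfalso
        subst hN2
        rw [hend] at e1
        rw [hbeg] at e2
        have f1 := (Prod.mk.inj e1).1
        have f2 := (Prod.mk.inj e2).1
        obtain ⟨g1, g2⟩ := hd_tl_inj β (j := j) (j' := s) (b := b) (b' := β)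
          (by rw [← f2, hus]; simp [tl]) (by rw [← f1, hus]; simp [hd]; ring)
        have w0 : w i = (s, some β) := by rw [ei, g1, g2]
        have w1 : w (i + 1) = (s, none) := by rw [hbeg, hus]
        have w2 : w (i + 1 + 1) = (s + 1, none) := by rw [h1, hus]
        have w3 : w (i + 1 + 1 + 1) = (s + 1 + 1, none) := by
          have := hr 2 (by omega)
          push_cast at this
          rw [show i + 1 + 1 + 1 = i + 1 + 2 by ring, this, hus]; congr 1; ring
        have w4 : w (i + 1 + 1 + 1 + 1) = (s + 1 + 1 + 1, none) := by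
          have := hr 3 (by omega)
          push_cast at this
          rw [show i + 1 + 1 + 1 + 1 = i + 1 + 3 by ring, this, hus]; congr 1; ring
        have w5 : w (i + 1 + 1 + 1 + 1 + 1) = (s, some β) := by
          rw [← w0, ← hw.per i]; congr 1; push_cast; ring
        simp only [five, Set.mem_insert_iff, Set.mem_singleton_iff] at hE
        rcases hE with rfl | rfl | rfl | rfl | rfl
        · exact hav i (by rw [w0, w1])
        · exact hav (i + 1) (by rw [w1, w2])
        · exact hav (i + 1 + 1) (by rw [w2, w3])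
        · exact hav (i + 1 + 1 + 1) (by rw [w3, w4])
        · exact hav (i + 1 + 1 + 1 + 1) (by rw [w4, w5])
      · have y3 := hx 3 (by omega)
        simp only [Nat.cast_ofNat] at y3
        rw [show u + 3 = u + 1 + 1 + 1 by ring] at y3
        have b3 := Pv_bd s (u + 1 + 1 + 1)
        have hne : u + 1 ≠ s := fun h => ne1 (n := n) (by linear_combination h - hus)
        rcases Pv_desc hodd s (u + 1) hne with a | a
        · exact Pat.of_low (xs_per s β hw) i (i + 1 + 1) (i + 1 + 2) (i - 1 + (N + 3)) (by omega)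
            (by omega) (by omega) (by omega) (by omega) (by omega) (by omega) (by omega)
        · exact Pat.of_low (xs_per s β hw) i (i + 1 + 2) (i + 1 + 3) (i - 1 + (N + 3)) (by omega)
            (by omega) (by omega) (by omega) (by omega) (by omega) (by omega) (by omega)
    · rcases Pv_desc hodd s u hus with a | a
      · exact Pat.of_low (xs_per s β hw) i (i + 1) (i + 1 + 1) (i - 1 + (N + 3)) (by omega)
          (by omega) (by omega) (by omega) (by omega) (by omega) (by omega) (by omega)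
      · exact Pat.of_low (xs_per s β hw) i (i + 1 + 1) (i + 1 + 2) (i - 1 + (N + 3)) (by omega)
          (by omega) (by omega) (by omega) (by omega) (by omega) (by omega) (by omega)

theorem xs_rev (w : ℤ → Vx n) : xs s β (fun k => w (-k)) = fun k => xs s β w (-k - 1) := by
  funext k
  simp only [xs]
  rw [gv_symm, sub_add_cancel, show -(k + 1) = -k - 1 by ring]

theorem one_gad (hodd : n % 2 = 1) (hw : IsCyc (Gr n) L w) {i : ℤ} (hi : (w i).2 ≠ none)
    (hno : ∀ k, i < k → k < i + L → (w k).2 = none)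
    {E : Sym2 (Vx n)} (hE : E ∈ five s β) (hav : ∀ k, s(w k, w (k + 1)) ≠ E) :
    Pat L (xs s β w) := by
  have h3 := hw.three
  rcases cyc_step hw (hno (i + 1) (by omega) (by omega)) (hno (i + 1 + 1) (by omega) (by omega))
    with h1 | h1
  · exact one_gad_fwd s β hodd hw hi hno h1 hE hav
  · refine Pat.of_rev (xs_per s β hw) ?_
    rw [← xs_rev]
    obtain ⟨N, rfl⟩ : ∃ N : ℕ, L = N + 3 := ⟨(L - 3).toNat, by omega⟩
    have hr := run hw (i + 1) (-1) (Or.inr rfl) N (fun k hk => hno _ (by omega) (by omega)) h1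
    refine one_gad_fwd s β hodd hw.rev (i := -(i + (N + 3))) ?_ ?_ ?_ hE ?_
    · simpa only [neg_neg, hw.per] using hi
    · intro k k1 k2
      exact hno _ (by omega) (by omega)
    · have a1 := hr N (by omega)
      have a2 := hr (N + 1) (by omega)
      push_cast at a2
      rw [show -(-(i + ((N : ℤ) + 3)) + 1 + 1) = i + 1 + N by ring,
        show -(-(i + ((N : ℤ) + 3)) + 1) = i + 1 + (N + 1) by ring, a1, a2]
      congr 1; ring
    · intro k
      have := hav (-(k + 1))
      rw [show -(k + 1) + 1 = -k by ring, Sym2.eq_swap] at this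
      exact this

theorem no_gad_fwd (hw : IsCyc (Gr n) L w) (hno : ∀ k, (w k).2 = none)
    (h1 : w (0 + 1) = ((w 0).1 + 1, none)) : Pat L (xs s β w) := by
  have h3 := hw.three
  have h7' := h7.out
  have hr : ∀ k : ℕ, w k = ((w 0).1 + k, none) := fun k => by
    simpa using run hw 0 1 (Or.inl rfl) k (fun k _ => hno _) h1 k (by omega)
  set u := (w 0).1 with hu
  have hx : ∀ k : ℕ, xs s β w k = Pv s (u + k) := by
    intro k
    have a2 := hr (k + 1)
    push_cast at a2
    rw [xs, hr k, a2, ← add_assoc, gv_fwd]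
  have hL : 7 ≤ L := by
    obtain ⟨N, rfl⟩ : ∃ N : ℕ, L = N := ⟨L.toNat, by omega⟩
    by_contra hlt
    have a := hw.per 0
    rw [zero_add, hr N] at a
    have := congrArg Prod.fst a
    exact small_ne (n := n) N (by omega) (by omega) (by linear_combination this)
  set k0 := (s - u).val with hk0
  have hy : ∀ k : ℕ, k < 7 → xs s β w ((k0 : ℤ) + k) = Qv k := by
    intro k hk
    have := hx (k0 + k)
    push_cast at this
    rw [this, hk0, ZMod.natCast_zmod_val, ← Pv_nat s k hk]
    congr 1; ring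
  have y2 := hy 2 (by omega)
  have y3 := hy 3 (by omega)
  have y4 := hy 4 (by omega)
  have y5 := hy 5 (by omega)
  simp only [Qv, Nat.cast_ofNat] at y2 y3 y4 y5
  norm_num at y2 y3 y4 y5
  exact ⟨k0 + 2, k0 + 3, k0 + 4, k0 + 5, by omega, by omega, by omega, by omega,
    by omega, by omega, by omega, by omega⟩

theorem no_gad (hw : IsCyc (Gr n) L w) (hno : ∀ k, (w k).2 = none) : Pat L (xs s β w) := by
  have h3 := hw.three
  rcases cyc_step hw (hno 0) (hno (0 + 1)) with h1 | h1
  · exact no_gad_fwd s β hw hno h1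
  · refine Pat.of_rev (xs_per s β hw) ?_
    rw [← xs_rev]
    refine no_gad_fwd s β hw.rev (fun k => hno _) ?_
    have a := hw.adj (-1)
    rcases cyc_step hw.rev (k := 0) (hno _) (hno _) with h2 | h2
    · exact h2
    · exfalso
      simp only [zero_add, neg_zero] at h1 h2
      exact hw.inj (-1) 1 (by omega) (by omega) (by rw [h1, h2])

theorem all_pat (hodd : n % 2 = 1) (hw : IsCyc (Gr n) L w)
    {E : Sym2 (Vx n)} (hE : E ∈ five s β) (hav : ∀ k, s(w k, w (k + 1)) ≠ E) :
    Pat L (xs s β w) := by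
  by_cases h0 : ∀ k, (w k).2 = none
  · exact no_gad s β hw h0
  push Not at h0
  obtain ⟨i, hi⟩ := h0
  by_cases h1 : ∀ k, i < k → k < i + L → (w k).2 = none
  · exact one_gad s β hodd hw hi h1 hE hav
  push Not at h1
  obtain ⟨j, j1, j2, hj⟩ := h1
  exact two_gad s β hw j1 j2 hi hj

end Cyc

/-- deleting any edge gives a graph with a good labelling -/
theorem good_delete (hodd : n % 2 = 1) {x y : Vx n} (h : (Gr n).Adj x y) :
    Good ((Gr n).deleteEdges {s(x, y)}) := by
  obtain ⟨s, β, hE⟩ := mem_five h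
  refine good_of_pat (gv s β) (gv_symm s β) fun L w hw => ?_
  have hw' : IsCyc (Gr n) L w :=
    ⟨hw.three, fun k => (deleteEdges_adj.1 (hw.adj k)).1, hw.per, hw.inj⟩
  exact all_pat s β hodd hw' hE fun k => (deleteEdges_adj.1 (hw.adj k)).2

end Pool.Agent.P.MP_f027b3_co
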