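import Pool.Agent.P.MP_f027b3_co.Label

set_option autoImplicit false

namespace Pool.Agent.P.MP_f027b3_co

open SimpleGraph

theorem family (N : ℕ) : ∃ (m : ℕ) (G : SimpleGraph (Fin m)), N < m ∧
    (∀ v, ∃ w, G.Adj v w) ∧ ¬ Good G ∧ (∀ H : SimpleGraph (Fin m), H < G → Good H) ∧
    2 * (G.edgeSet.ncard : ℝ) < 7 / 2 * (m : ℝ) := by
  set n := 2 * N + 7 with hn
  have h7 : Fact (7 ≤ n) := ⟨by omega⟩
  have hodd : n % 2 = 1 := by omega
  let e : Fin (3 * n) ≃ Vx n := (Fintype.equivFinOfCardEq (card_Vx (n := n))).symm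
  let G : SimpleGraph (Fin (3 * n)) := (Gr n).comap e
  have iso : G ≃g Gr n := Iso.comap e (Gr n)
  refine ⟨3 * n, G, by omega, ?_, ?_, ?_, ?_⟩
  · intro v
    obtain ⟨w, hw⟩ := no_isolated (e v)
    exact ⟨e.symm w, by simpa [G] using hw⟩
  · intro h
    exact not_good hodd (Good.of_hom iso.symm.toHom iso.symm.injective h)
  · intro H hH
    obtain ⟨a, b, hab, hnot⟩ : ∃ a b, G.Adj a b ∧ ¬ H.Adj a b := by
      by_contra hc
      push Not at hc
      exact hH.not_ge fun a b h => hc a b h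
    have hg := good_delete hodd (x := e a) (y := e b) hab
    refine Good.of_hom (G := (Gr n).deleteEdges {s(e a, e b)}) ⟨e, ?_⟩ e.injective hg
    intro x y hxy
    rw [deleteEdges_adj]
    refine ⟨hH.le hxy, fun h => hnot ?_⟩
    rcases Sym2.eq_iff.1 (Set.mem_singleton_iff.1 h) with ⟨h1, h2⟩ | ⟨h1, h2⟩
    · rw [← e.injective h1, ← e.injective h2]; exact hxy
    · rw [← e.injective h1, ← e.injective h2]; exact hxy.symm
  · have h1 : G.edgeSet.ncard = (Gr n).edgeSet.ncard := by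
      rw [← Nat.card_coe_set_eq, ← Nat.card_coe_set_eq]
      exact Nat.card_congr iso.mapEdgeSet
    have h2 : ((Gr n).edgeSet.ncard : ℝ) ≤ 5 * n := by exact_mod_cast edge_card (n := n)
    have h3 : (7 : ℝ) ≤ n := by exact_mod_cast h7.out
    rw [h1]
    push_cast
    linarith

end Pool.Agent.P.MP_f027b3_co
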