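import Pool.Agent.K.MP_f027b3_co.C0

set_option autoImplicit false

namespace Pool.Agent.P.MP_f027b3_co

open SimpleGraph

/-- A good edge labelling, with labels on unordered pairs and no indices along the cycle. -/
def ownGood {V : Type} (G : SimpleGraph V) : Prop :=
  ∃ l : Sym2 V → ℝ, Set.InjOn l G.edgeSet ∧ ∀ (u : V) (p : G.Walk u u), p.IsCycle →
    ∃ e₁ ∈ p.edges, ∃ e₂ ∈ p.edges, e₁ ≠ e₂ ∧
      (∀ e ∈ p.edges, e ≠ e₁ → (∃ v, v ∈ e ∧ v ∈ e₁) → l e < l e₁) ∧
      (∀ e ∈ p.edges, e ≠ e₂ → (∃ v, v ∈ e ∧ v ∈ e₂) → l e < l e₂)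

theorem own_succ {L i : ℕ} (hi : i < L) :
    (i + 1 < L ∧ (i + 1) % L = i + 1) ∨ (i + 1 = L ∧ (i + 1) % L = 0) := by
  rcases Nat.lt_or_ge (i + 1) L with h | h
  · exact Or.inl ⟨h, Nat.mod_eq_of_lt h⟩
  · have e : i + 1 = L := by omega
    exact Or.inr ⟨e, by rw [e, Nat.mod_self]⟩

theorem own_pred {L i : ℕ} (hi : i < L) :
    (i = 0 ∧ (i + L - 1) % L = L - 1) ∨ (0 < i ∧ (i + L - 1) % L = i - 1) := by
  rcases Nat.eq_zero_or_pos i with h | h
  · exact Or.inl ⟨h, by rw [h, zero_add, Nat.mod_eq_of_lt (by omega)]⟩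
  · refine Or.inr ⟨h, ?_⟩
    rw [show i + L - 1 = i - 1 + L by omega, Nat.add_mod_right, Nat.mod_eq_of_lt (by omega)]

section
variable {V : Type} {G : SimpleGraph V}

theorem own_mem_edges {u v : V} (p : G.Walk u v) (e : Sym2 V) :
    e ∈ p.edges ↔ ∃ i, i < p.length ∧ e = s(p.getVert i, p.getVert (i + 1)) := by
  induction p with
  | nil => simp
  | cons h p ih =>
    rw [Walk.edges_cons, List.mem_cons, ih, Walk.length_cons]
    constructor
    · rintro (rfl | ⟨i, hi, rfl⟩)
      · exact ⟨0, by omega, by simp⟩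
      · exact ⟨i + 1, by omega, by simp⟩
    · rintro ⟨_ | i, hi, rfl⟩
      · exact Or.inl (by simp)
      · exact Or.inr ⟨i, by omega, by simp⟩

variable {u : V} {p : G.Walk u u}

theorem own_wrap {i : ℕ} (hi : i < p.length) :
    p.getVert (i + 1) = p.getVert ((i + 1) % p.length) := by
  rcases own_succ hi with ⟨-, h⟩ | ⟨h1, h⟩
  · rw [h]
  · rw [h, h1, Walk.getVert_zero, Walk.getVert_length]

theorem own_inj (hp : p.IsCycle) {i j : ℕ} (hi : i < p.length) (hj : j < p.length)
    (h : p.getVert i = p.getVert j) : i = j :=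
  hp.getVert_injOn' (show i ≤ p.length - 1 by omega) (show j ≤ p.length - 1 by omega) h

theorem own_share (hp : p.IsCycle) {i j : ℕ} (hi : i < p.length) (hj : j < p.length) {v : V}
    (h1 : v ∈ s(p.getVert j, p.getVert (j + 1))) (h2 : v ∈ s(p.getVert i, p.getVert (i + 1))) :
    j = i ∨ j = (i + 1) % p.length ∨ j = (i + p.length - 1) % p.length := by
  rw [own_wrap hj, Sym2.mem_iff] at h1
  rw [own_wrap hi, Sym2.mem_iff] at h2
  have a1 := own_succ hi
  have a2 := own_succ hj
  have a3 := own_pred hi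
  rcases h1 with h1 | h1 <;> rcases h2 with h2 | h2
  · have := own_inj hp hj hi (h1.symm.trans h2)
    omega
  · have := own_inj hp hj (by omega) (h1.symm.trans h2)
    omega
  · have := own_inj hp (by omega) hi (h1.symm.trans h2)
    omega
  · have := own_inj hp (by omega) (by omega) (h1.symm.trans h2)
    omega

theorem own_edge_inj (hp : p.IsCycle) {i j : ℕ} (hi : i < p.length) (hj : j < p.length)
    (h : s(p.getVert i, p.getVert (i + 1)) = s(p.getVert j, p.getVert (j + 1))) : i = j := by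
  rw [own_wrap hi, own_wrap hj, Sym2.eq_iff] at h
  have h3 := hp.three_le_length
  have a1 := own_succ hi
  have a2 := own_succ hj
  rcases h with ⟨h, -⟩ | ⟨h1, h2⟩
  · exact own_inj hp hi hj h
  · have := own_inj hp hi (by omega) h1
    have := own_inj hp (by omega) hj h2
    omega

theorem own_locmax (hp : p.IsCycle) (l : Sym2 V → ℝ) {i : ℕ} (hi : i < p.length) :
    (∀ e ∈ p.edges, e ≠ s(p.getVert i, p.getVert (i + 1)) →
      (∃ v, v ∈ e ∧ v ∈ s(p.getVert i, p.getVert (i + 1))) →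
        l e < l s(p.getVert i, p.getVert (i + 1))) ↔
    (l s(p.getVert ((i + 1) % p.length), p.getVert ((i + 1) % p.length + 1)) <
        l s(p.getVert i, p.getVert (i + 1)) ∧
      l s(p.getVert ((i + p.length - 1) % p.length),
          p.getVert ((i + p.length - 1) % p.length + 1)) <
        l s(p.getVert i, p.getVert (i + 1))) := by
  have h3 := hp.three_le_length
  have a1 := own_succ hi
  have a3 := own_pred hi
  have b1 : (i + 1) % p.length < p.length := by omega
  have b3 : (i + p.length - 1) % p.length < p.length := by omega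
  constructor
  · intro h
    refine ⟨h _ ((own_mem_edges p _).2 ⟨_, b1, rfl⟩) (fun e => ?_) ⟨p.getVert (i + 1), ?_, by simp⟩,
      h _ ((own_mem_edges p _).2 ⟨_, b3, rfl⟩) (fun e => ?_) ⟨p.getVert i, ?_, by simp⟩⟩
    · have := own_edge_inj hp b1 hi e
      omega
    · rw [own_wrap hi]
      exact Sym2.mem_mk_left _ _
    · have := own_edge_inj hp b3 hi e
      omega
    · have a4 := own_succ b3
      have e : ((i + p.length - 1) % p.length + 1) % p.length = i := by omega
      rw [own_wrap b3, e]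
      exact Sym2.mem_mk_right _ _
  · rintro ⟨h1, h2⟩ e he hne ⟨v, hv1, hv2⟩
    obtain ⟨j, hj, rfl⟩ := (own_mem_edges p e).1 he
    rcases own_share hp hi hj hv1 hv2 with rfl | rfl | rfl
    · exact absurd rfl hne
    · exact h1
    · exact h2

theorem ownGood_iff : ownGood G ↔ Good G := by
  constructor
  · rintro ⟨l, hl, hc⟩
    refine ⟨fun a b => l s(a, b), fun a b => by simp only [Sym2.eq_swap (a := a)],
      fun x y z w h1 h2 h => Sym2.eq_iff.1 (hl h1 h2 h), fun u p hp => ?_⟩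
    obtain ⟨e₁, m1, e₂, m2, hne, k1, k2⟩ := hc u p hp
    obtain ⟨i, hi, rfl⟩ := (own_mem_edges p _).1 m1
    obtain ⟨j, hj, rfl⟩ := (own_mem_edges p _).1 m2
    obtain ⟨c1, c2⟩ := (own_locmax hp l hi).1 k1
    obtain ⟨c3, c4⟩ := (own_locmax hp l hj).1 k2
    exact ⟨i, j, hi, hj, fun e => hne (by rw [e]), c1, c2, c3, c4⟩
  · rintro ⟨f, hs, hi, hc⟩
    refine ⟨Sym2.lift ⟨f, hs⟩, fun e he e' he' h => ?_, fun u p hp => ?_⟩
    · induction e using Sym2.ind with
      | h x y =>
        induction e' using Sym2.ind with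
        | h z w => exact Sym2.eq_iff.2 (hi x y z w he he' h)
    · obtain ⟨i, j, h1, h2, hij, c1, c2, c3, c4⟩ := hc u p hp
      exact ⟨_, (own_mem_edges p _).2 ⟨i, h1, rfl⟩, _, (own_mem_edges p _).2 ⟨j, h2, rfl⟩,
        fun e => hij (own_edge_inj hp h1 h2 e), (own_locmax hp _ h1).2 ⟨c1, c2⟩,
        (own_locmax hp _ h2).2 ⟨c3, c4⟩⟩

end

section
variable {n : ℕ} [h7 : Fact (7 ≤ n)]

theorem own_edgeOf_inj : Function.Injective (edgeOf (n := n)) := by
  have k2 : ∀ i j : ZMod n, i = j + 1 → i + 1 = j → False := fun i j h1 h2 =>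
    ne2 (n := n) (by linear_combination h2 - h1)
  have k3 : ∀ i j : ZMod n, i = j + 3 → i = j → False := fun i j h1 h2 =>
    ne3 (n := n) (by linear_combination h2 - h1)
  have k4 : ∀ i j : ZMod n, i + 3 = j → i = j → False := fun i j h1 h2 =>
    ne3 (n := n) (by linear_combination h1 - h2)
  rintro ⟨i, a⟩ ⟨j, b⟩ h
  fin_cases a <;> fin_cases b <;>
    simp only [edgeOf, Fin.zero_eta, Fin.mk_one, Fin.reduceFinMk, Matrix.cons_val, Sym2.eq_iff,
      Prod.mk.injEq, reduceCtorEq, and_false, false_and, or_false, and_true,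
      Option.some.injEq, Bool.true_eq_false, Bool.false_eq_true] at h ⊢ <;>
    first
      | exact h.1
      | exact h.2
      | exact (k3 _ _ h.1 h.2).elim
      | exact (k4 _ _ h.1 h.2).elim
      | exact h.elim (fun h => h.1) fun h => (k2 _ _ h.1 h.2).elim

theorem own_edge_card : (Gr n).edgeSet.ncard = 5 * n := by
  refine le_antisymm edge_card ?_
  have hsub : Set.range (edgeOf (n := n)) ⊆ (Gr n).edgeSet := by
    rintro _ ⟨⟨i, a⟩, rfl⟩
    fin_cases a
    · exact (adj_nn _ _).2 (Or.inl rfl)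
    · exact (adj_ns _ _ _).2 (Or.inl rfl)
    · exact (adj_ns _ _ _).2 (Or.inl rfl)
    · exact (adj_ns _ _ _).2 (Or.inr rfl)
    · exact (adj_ns _ _ _).2 (Or.inr rfl)
  refine le_trans (le_of_eq ?_) (Set.ncard_le_ncard hsub (Set.toFinite _))
  rw [← Set.image_univ, Set.ncard_image_of_injective _ own_edgeOf_inj, Set.ncard_univ,
    Nat.card_prod, Nat.card_zmod]
  simp [mul_comm]

theorem own_card : Nat.card (ZMod n × Option Bool) = 3 * n := by
  rw [Nat.card_eq_fintype_card]
  exact card_Vx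

theorem own_not_good (hodd : n % 2 = 1) : ¬ ownGood (Gr n) := fun h =>
  not_good hodd (ownGood_iff.1 h)

theorem own_proper (hodd : n % 2 = 1) (H : (Gr n).Subgraph) (hH : H ≠ ⊤) : ownGood H.coe := by
  obtain ⟨a, b, hab, hnot⟩ : ∃ a b, (Gr n).Adj a b ∧ ¬ H.Adj a b := by
    by_contra hc
    push Not at hc
    refine hH (top_le_iff.1 ⟨fun v _ => ?_, fun a b h => hc a b h⟩)
    obtain ⟨w, hw⟩ := no_isolated v
    exact H.edge_vert (hc v w hw)
  refine ownGood_iff.2 (Good.of_hom (G := (Gr n).deleteEdges {s(a, b)}) ⟨Subtype.val, ?_⟩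
    Subtype.val_injective (good_delete hodd hab))
  intro x y hxy
  have hxy' : H.Adj x.1 y.1 := hxy
  rw [deleteEdges_adj]
  refine ⟨H.adj_sub hxy', fun h => hnot ?_⟩
  rcases Sym2.eq_iff.1 (Set.mem_singleton_iff.1 h) with ⟨h1, h2⟩ | ⟨h1, h2⟩
  · rw [← h1, ← h2]; exact hxy'
  · rw [← h1, ← h2]; exact hxy'.symm

end

end Pool.Agent.P.MP_f027b3_co
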